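import Pool.Agent.H61.DH.F1
import Pool.Agent.H98.DH.Upp

/-!
Final form (helper91): one sequence of constraint sets for each number `D` of levels, lower bound for all `e`, `f`, and the upper bound with `D + 1` levels.
-/

set_option autoImplicit false
open scoped Classical

namespace H91DH

open H98DH Filter

theorem final (h : MasterSt) (D : ℕ) (hD : 2 ≤ D) :
    ∃ (n r : ℕ → ℕ) (C : ∀ N, Fin (r N) → Fm (n N) D),
      (∀ᶠ N in atTop, n N ≤ N ∧ r N ≤ N ^ 7 ∧ (∀ j, leaves D (C N j) ≤ N) ∧ (∀ x, ∃ j, ¬ Holds D (C N j) x) ∧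
        Refutes (fun j => {x | Holds D (C N j) x}) 1 (D + 1) 2 (N ^ 9)) ∧
      ∀ e f : ℕ, ∃ c : ℝ, 0 < c ∧ ∀ᶠ N : ℕ in atTop, ∀ S : ℕ, Refutes (fun j => {x | Holds D (C N j) x}) e D f S →
        Real.exp (c * Real.log N ^ ((D : ℝ) / ((D : ℝ) - 1))) ≤ S := by
  obtain ⟨K, rfl⟩ : ∃ K, D = K + 1 := ⟨D - 1, by omega⟩
  have hK : 1 ≤ K := by omega
  have hex : ∀ N : ℕ, ∃ (n r : ℕ) (C : Fin r → Fm n (K + 1)), 10 ^ 6 * (K : ℝ) ≤ Real.log N → (n ≤ N ∧ r ≤ N ^ 7 ∧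
      (∀ j, leaves (K + 1) (C j) ≤ N) ∧ (∀ x, ∃ j, ¬ Holds (K + 1) (C j) x) ∧
      ∀ D e f S w : ℕ, 2 ≤ D → 1 ≤ e → Real.log N ≤ w →
        8 * e * (w : ℝ) ^ (D - 1) * (8000 * K) ^ K ≤ Real.log N ^ (K + 1) →
        ((f : ℝ) + 1) * e * (w : ℝ) ^ (D - 1) ≤ (N : ℝ) ^ (1 / 4 : ℝ) →
        Refutes (fun j => {x | Holds (K + 1) (C j) x}) e D f S →
        min ((8 / 5 : ℝ) ^ w) (Real.exp ((N : ℝ) ^ (1 / 4 : ℝ) / 2)) ≤ 2 * ((N : ℝ) + 1) * S) := by
    intro N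
    by_cases hN : 10 ^ 6 * (K : ℝ) ≤ Real.log N
    · obtain ⟨n, r, C, hC⟩ := h K N hK hN
      exact ⟨n, r, C, fun _ => hC⟩
    · exact ⟨0, 0, Fin.elim0, fun h' => absurd h' hN⟩
  choose n r C hC using hex
  have hlog : Tendsto (fun N : ℕ => Real.log N) atTop atTop := Real.tendsto_log_atTop.comp tendsto_natCast_atTop_atTop
  refine ⟨n, r, C, ?_, ?_⟩
  · filter_upwards [hlog.eventually_ge_atTop (10 ^ 6 * (K : ℝ)), eventually_ge_atTop (K + 2)] with N h1 h2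
    obtain ⟨g1, g2, g3, g4, -⟩ := hC N h1
    refine ⟨g1, g2, g3, g4, ?_⟩
    refine Refutes.mono (by omega) ?_ (upper (C N) g3 g4)
    have h3 : (K + 1) * N + 1 ≤ N ^ 2 := by nlinarith
    calc r N * ((K + 1) * N + 1) ≤ N ^ 7 * N ^ 2 := Nat.mul_le_mul g2 h3
      _ = N ^ 9 := by rw [← pow_add]
  · intro e f
    obtain ⟨c, hc, L0, hL0⟩ := H61DH.f1_core K (K + 1) (max e 1) f hK hD le_rfl (le_max_right _ _)
    refine ⟨c, hc, ?_⟩
    filter_upwards [hlog.eventually_ge_atTop L0, eventually_ge_atTop 1] with N hN hN0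
    have hNp : (0 : ℝ) < N := by exact_mod_cast hN0
    have hN1' : (1 : ℝ) ≤ N := by exact_mod_cast hN0
    obtain ⟨w, h1, h2, h3, h4, h5, h6⟩ := hL0 (Real.log N) hN
    obtain ⟨-, -, -, -, g5⟩ := hC N h6
    have hE : (N : ℝ) ^ (1 / 4 : ℝ) = Real.exp (Real.log N / 4) := by
      rw [Real.rpow_def_of_pos hNp]
      congr 1
      ring
    intro S hS
    have hS' : Refutes (fun j => {x | Holds (K + 1) (C N j) x}) (max e 1) (K + 1) f S :=
      Refutes.mono_all (le_max_left _ _) le_rfl (by omega) le_rfl le_rfl hS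
    have h7 := g5 (K + 1) (max e 1) f S w hD (le_max_right _ _) h1 h2 (by rw [hE]; exact h3) hS'
    have hexp : (((K + 1 : ℕ) : ℝ)) / (((K + 1 : ℕ) : ℝ) - 1) = ((K : ℝ) + 1) / (((K + 1 : ℕ) : ℝ) - 1) := by
      push_cast
      ring
    rw [hexp]
    set y : ℝ := c * Real.log N ^ (((K : ℝ) + 1) / (((K + 1 : ℕ) : ℝ) - 1)) with hy
    have h8 : Real.exp (y + Real.log N + 2) ≤ min ((8 / 5 : ℝ) ^ w) (Real.exp ((N : ℝ) ^ (1 / 4 : ℝ) / 2)) := by
      refine le_min ?_ (Real.exp_le_exp.mpr (by rw [hE]; exact h5))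
      have h9 : (8 / 5 : ℝ) ^ w = Real.exp (w * Real.log (8 / 5)) := by
        rw [Real.exp_nat_mul, Real.exp_log (by norm_num)]
      rw [h9]
      exact Real.exp_le_exp.mpr h4
    have h10 : Real.exp (y + Real.log N + 2) = Real.exp y * (N * Real.exp 2) := by
      rw [Real.exp_add, Real.exp_add, Real.exp_log hNp]
      ring
    have h11 : 2 * ((N : ℝ) + 1) ≤ N * Real.exp 2 := by
      have h12 := Real.add_one_le_exp (1 : ℝ)
      have h13 : Real.exp 2 = Real.exp 1 * Real.exp 1 := by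
        rw [← Real.exp_add]
        norm_num
      have h15 : (4 : ℝ) ≤ Real.exp 1 * Real.exp 1 := by nlinarith
      rw [h13]
      have h16 : (N : ℝ) * 4 ≤ N * (Real.exp 1 * Real.exp 1) := mul_le_mul_of_nonneg_left h15 hNp.le
      linarith
    have h14 : Real.exp y * (2 * ((N : ℝ) + 1)) ≤ 2 * ((N : ℝ) + 1) * S := by
      refine le_trans ?_ (h8.trans h7)
      rw [h10]
      exact mul_le_mul_of_nonneg_left h11 (Real.exp_pos y).le
    rw [mul_comm] at h14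
    exact le_of_mul_le_mul_left h14 (by positivity)

end H91DH
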